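import Pool.Agent.Helper1.RG.Defs

/-! Row V of the project RG (MP_c9c10f): the invariant event on which `χ (1/5)` is determined by the
restriction of `χ` to the ring `R`. -/

set_option autoImplicit false

open MeasureTheory Complex
open scoped ComplexConjugate

namespace Pool.Agent.Helper80.RG

open Pool.Agent.Helper1.RG

theorem meas_ev (x : ℂ) (S : Set ℂ) (hx : x ∈ S) : Measurable[sig S] (ev x) := by
  have h : ev x = (fun f : S → ℂ => f ⟨x, hx⟩) ∘ (fun (χ : Om) (y : S) => ev (y : ℂ) χ) := rfl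
  rw [h]
  exact (measurable_pi_apply _).comp (comap_measurable _)

theorem meas_ev' (x : ℂ) : Measurable (ev x) := meas_ev x Set.univ (Set.mem_univ x)

theorem norm_ev (x : ℂ) (χ : Om) : ‖ev x χ‖ = 1 := Circle.norm_coe _

theorem eq_of_re {w z : ℂ} (hw : ‖w‖ = 1) (hz : ‖z‖ ≤ 1) (h : 1 ≤ (conj w * z).re) : z = w := by
  have h1 : w.re * w.re + w.im * w.im = 1 := by
    have := Complex.normSq_eq_norm_sq w
    rw [hw, Complex.normSq_apply] at this
    linarith
  have h2 : z.re * z.re + z.im * z.im ≤ 1 := by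
    have := Complex.normSq_eq_norm_sq z
    rw [Complex.normSq_apply] at this
    rw [this]
    nlinarith [norm_nonneg z]
  have h3 : 1 ≤ w.re * z.re + w.im * z.im := by
    simpa [Complex.mul_re] using h
  have h4 : (z.re - w.re) ^ 2 + (z.im - w.im) ^ 2 ≤ 0 := by nlinarith
  have h5 : z.re - w.re = 0 := by
    have := sq_nonneg (z.im - w.im)
    exact pow_eq_zero_iff (two_ne_zero) |>.1 (le_antisymm (by linarith) (sq_nonneg _))
  have h6 : z.im - w.im = 0 := by
    have := sq_nonneg (z.re - w.re)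
    exact pow_eq_zero_iff (two_ne_zero) |>.1 (le_antisymm (by linarith) (sq_nonneg _))
  exact Complex.ext (by linarith) (by linarith)

theorem sum_five (f : ℕ → ℝ) (h : ∀ a, f a ≤ 1)
    (h1 : (1 / 5 : ℝ) * ∑ a ∈ Finset.range 5, f a = 1) : 1 ≤ f 1 := by
  rw [Finset.sum_range_succ, Finset.sum_range_succ, Finset.sum_range_succ,
    Finset.sum_range_succ, Finset.sum_range_succ, Finset.sum_range_zero] at h1
  have t0 := h 0
  have t2 := h 2
  have t3 := h 3
  have t4 := h 4
  linarith

theorem iter_mulShift (k : ℂ) (j : ℕ) (χ : Om) :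
    (fun χ : Om => χ.mulShift k)^[j] χ = χ.mulShift (k ^ j) := by
  induction j with
  | zero =>
    apply DFunLike.ext
    intro x
    simp
  | succ j ih =>
    rw [Function.iterate_succ_apply', ih]
    apply DFunLike.ext
    intro x
    simp only [AddChar.mulShift_apply]
    congr 1
    ring

theorem st_V (hMS : ST_MS) (hA1 : ST_A1) (hFIL : ST_FIL) (hL1 : ST_L1) (hH3 : ST_H3)
    (hH4 : ST_H4) (hPRD : ST_PRD) : ST_V := by
  intro P hP hInv hne
  obtain ⟨hZI, -, -, -, hkk, -⟩ := hA1
  have hfil := hFIL 0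
  have h0 : Fil 0 ≤ instMeasOm := hfil.1.trans hfil.2.1
  have hx0 : xj 0 = 1 / 5 := by simp [xj]
  have h1R : (1 : ℂ) ∈ RR := hZI 1 ⟨1, 0, by simp⟩
  have hm5 : Measurable[Fil 0] (ev (5 * xj 0)) := by
    have : (5 * xj 0) = 1 := by rw [hx0]; norm_num
    rw [this]
    exact meas_ev 1 (Rj 0) (by simpa [Rj] using h1R)
  have hL := (hL1 P hP (Fil 0) (Fil 1) (xj 0) hfil.1 hfil.2.1 hm5 hfil.2.2).1
  have hpm : Measurable (pj P 0) := by
    unfold pj pp
    refine Measurable.const_mul (Finset.measurable_sum _ fun a _ => ?_) _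
    refine Complex.measurable_re.comp (Measurable.mul ?_ ?_)
    · exact (Complex.continuous_conj.measurable).comp (meas_ev' _)
    · exact (stronglyMeasurable_condExp.measurable).mono h0 le_rfl
  set p : Om → ℝ := fun χ => max 0 (min 1 (pj P 0 χ)) with hpdef
  have hp : Measurable p := measurable_const.max (measurable_const.min hpm)
  have hpe : ∀ᵐ χ ∂P, p χ = pj P 0 χ := by
    filter_upwards [hL] with χ h
    simp only [hpdef]
    rw [min_eq_right (by exact h.2), max_eq_right (by exact h.1)]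
  set T : Om → Om := fun χ => χ.mulShift kk with hTdef
  have hT : MeasurePreserving T P P := ⟨hMS kk, hInv kk hkk⟩
  have hit : ∀ j (χ : Om), T^[j] χ = χ.mulShift (kk ^ j) := iter_mulShift kk
  have hH4' := hH4 P hP hInv
  have hpj : ∀ j, ∀ᵐ χ ∂P, p (T^[j] χ) = pj P j χ := by
    intro j
    have a := (hT.iterate j).quasiMeasurePreserving.ae hpe
    filter_upwards [a, hH4'.1 j] with χ ha hb
    rw [ha, hb, hit]
  have hn1 : ‖∫ χ, ev 1 χ ∂P‖ ≤ 1 := by
    have := norm_integral_le_of_norm_le_const (μ := P) (f := ev 1) (C := 1)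
      (Filter.Eventually.of_forall fun χ => (norm_ev 1 χ).le)
    simpa using this
  have hn0 : 0 < ‖∫ χ, ev 1 χ ∂P‖ := norm_pos_iff.2 hne
  have hc : ∀ L : ℕ, 4 / 5 * ‖∫ χ, ev 1 χ ∂P‖ ^ 2 ≤
      ∫ χ, ∏ j ∈ Finset.range L, p (T^[j] χ) ∂P := by
    intro L
    rcases L with _ | L
    · have e1 : ∫ χ, ∏ j ∈ Finset.range 0, p (T^[j] χ) ∂P = 1 := by simp
      rw [e1]
      nlinarith
    · refine (hH3 P hP hInv L).trans (le_of_eq (integral_congr_ae ?_))
      filter_upwards [ae_all_iff.2 hpj] with χ h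
      exact Finset.prod_congr rfl fun j _ => (h j).symm
  obtain ⟨v1, v2, v3, v4⟩ := hPRD Om inferInstance P hP T p _ hT hp
    (fun χ => le_max_left _ _) (fun χ => max_le zero_le_one (min_le_left _ _)) hc
  refine ⟨VV T p, v1, ?_, v3, ?_, ?_⟩
  · intro h
    have : P.real (VV T p) = 0 := by simp [Measure.real, h]
    rw [this] at v2
    nlinarith [pow_pos hn0 2]
  · intro u hu huR huR'
    have a : ∀ᵐ χ ∂P, p (χ.mulShift u) = p χ := by
      filter_upwards [hH4'.2 u hu huR huR'] with χ h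
      simp only [hpdef, h]
    have b : ∀ᵐ χ ∂P, ∀ j, p ((T^[j] χ).mulShift u) = p (T^[j] χ) :=
      ae_all_iff.2 fun j => (hT.iterate j).quasiMeasurePreserving.ae a
    filter_upwards [b] with χ h
    have e1 : ∀ j, p (T^[j] (χ.mulShift u)) = p (T^[j] χ) := by
      intro j
      rw [← h j]
      congr 1
      rw [hit, hit]
      apply DFunLike.ext
      intro x
      simp only [AddChar.mulShift_apply]
      congr 1
      ring
    simp only [VV, Set.mem_ofPred_eq, e1]
  · have hb : ∀ a : ℕ, ∀ᵐ χ ∂P, ‖(P[ev ((a : ℂ) * xj 0) | Fil 0]) χ‖ ≤ 1 := by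
      intro a
      have h1 := norm_condExp_le (μ := P) (m := Fil 0) (ev ((a : ℂ) * xj 0))
      have h2 : (fun χ => ‖ev ((a : ℂ) * xj 0) χ‖) = fun _ => (1 : ℝ) :=
        funext fun χ => norm_ev _ χ
      rw [h2, condExp_const h0] at h1
      exact h1
    filter_upwards [v4, hpe, ae_all_iff.2 hb] with χ h4 he hb hV
    have h1 := h4 hV
    rw [he] at h1
    unfold pj pp at h1
    have t : ∀ a : ℕ, (conj (ev ((a : ℂ) * xj 0) χ) *
        (P[ev ((a : ℂ) * xj 0) | Fil 0]) χ).re ≤ 1 := by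
      intro a
      refine (Complex.re_le_norm _).trans ?_
      rw [norm_mul, Complex.norm_conj, norm_ev, one_mul]
      exact hb a
    have h2 := eq_of_re (norm_ev (((1 : ℕ) : ℂ) * xj 0) χ) (hb 1) (sum_five _ t h1)
    rw [hx0] at h2
    simpa using h2

end Pool.Agent.Helper80.RG
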